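import Pool.Agent.H379.TN.Defs

/-!
# Project TN (MP_68f647_al, S01776): the statements of the parts

Notation: `M = B × U`, `C = End_B(M)`, `Q = Chi π` (the simple `C`-module of the summand `U`),
`DC = DA K C`. `EV R X Y` means `Ext^i_R(X, Y) = 0` for all `i ≥ 1`. All modules are left modules.
`M` is a left `C`-module (`Module.End` acts), and for a `B`-module `N` the groups
`F N = Hom_B(N, M)` (contravariant, `C` acts by postcomposition) and
`G N = D Hom_B(M, N)` (contravariant, `(γ ξ)(f) = ξ(f ∘ γ)`) are left `C`-modules.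
`C = F M`, `DC = G M`, `F (B^n) ≅ M^n`, `G (B^n) ≅ M^n` (by `z ↦ (f ↦ lam (f z))`), and
`M = F B` is a projective `C`-module (a direct summand of `C = F (B × U)`), and an injective one
(`M ≅ G B = D (Hom_B(M, B))`, the dual of a projective right `C`-module).
Compare `Pool/Agent/H190/NK/*.lean` (the case `nu = id` of part A: `Func.lean`, `Dual.lean`,
`Main.lean`), from which much can be copied. `Ext` is handled by dimension shifting with
`Pool.Agent.H190.NK.contra_shift`, `contra_one`, `co_shift`, `co_lift`, `co_mid`, `shortExact_of`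
(`Pool/Agent/H190/NK/ExtLemmas.lean`).
-/

set_option autoImplicit false

open CategoryTheory CategoryTheory.Abelian
open Pool.Agent.H379.GS

namespace Pool.Agent.H379.TN

/-- PART A. `Ext^i_C(DC, C) = 0` for `i ≥ 1`.

Proof (generalises `Pool.Agent.H190.NK.ext_G`, `nu = id`). For `N` finitely generated with
`EV B U N` and `EV B U (Tw y N)` we show `EV C (G N) C`; then take `N = M = B × U` (`B` is an
injective `B`-module, and `Tw y B ≅ B` by `nu`), `DC = G M`.
For `u : M → Tw y N` linear put `EE u : G N → C`, `lam (s (EE u ξ x)) = ξ (z ↦ s z • u x)` for all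
`s : M → B` linear (`κ : D Hom_B(M, B) ≅ M`). `EE u ξ` is `B`-linear because
`lam (s (t • EE u ξ x)) = lam (t * s (EE u ξ x)) = lam (s (EE u ξ x) * nu t)
  = ξ (z ↦ (s z * nu t) • u x) = ξ (z ↦ s z • u (t • x))`.
`EE : Hom_B(M, Tw y N) → Hom_C(G N, C)` is bijective for `N = B^n` and hence (left exactness) for
all `N`. Embed `N` in `B^n` (`exists_embed`), `N' = B^n / N`; then `0 → G N' → G B^n → G N → 0` is
exact since `Ext^1(M, N) = 0`, `G B^n` is projective, `N'` is again in the class (dimension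
shift; `Tw y (B^n)` is injective), and every map `G N' → C` is `EE h'`, `h' : M → Tw y N'`, which
lifts to `M → Tw y (B^n)` since `Ext^1(U, Tw y N) = 0`; so it extends to `G B^n`. -/
def S_A : Prop := ∀ (K B : Type) [Field K] [Ring B] [Algebra K B] [Module.Finite K B] (y : Fr K B)
  (U : Type) [AddCommGroup U] [Module K U] [Module B U] [IsScalarTower K B U] [Module.Finite K U],
  EV B U U → EV B U (Tw y U) →
  EV (Module.End B (B × U)) (DA K (Module.End B (B × U))) (Module.End B (B × U))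

/-- PART B. `Hom_C(DC, Q) = 0` and `Ext^i_C(DC, Q) = 0` for `i ≥ 1`.

Proof. (1) Every `C`-linear `θ : M → Q` is zero: with `p₁ = fst : M → B` and `e = (1, 0) ∈ M` we
have `z = γ e` for `γ = p₁.smulRight z ∈ C`, and `π γ = 0` as `γ (0, u) = 0`; so
`θ z = π γ * θ e = 0`. (2) Hence `Hom_C(G (B^n), Q) = 0`, as `G (B^n) ≅ M^n`. (3) For `N` finitely
generated with `EV B U N`: embed `N` in `B^n`, `N' = B^n / N`, then `0 → G N' → G B^n → G N → 0`
is exact (`Ext^1_B(M, N) = 0`), `G B^n` is projective, and `N'` is in the class. So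
`Hom_C(G N, Q) ⊆ Hom_C(G B^n, Q) = 0` for all such `N`, `Ext^1_C(G N, Q)` is a quotient of
`Hom_C(G N', Q) = 0`, and `Ext^{i+1}_C(G N, Q) = Ext^i_C(G N', Q)`. Take `N = M`, `DC = G M`. -/
def S_B : Prop := ∀ (K B : Type) [Field K] [Ring B] [Algebra K B] [Module.Finite K B] (_ : Fr K B)
  (U : Type) [AddCommGroup U] [Module K U] [Module B U] [IsScalarTower K B U] [Module.Finite K U]
  [Nontrivial U] (π : Module.End B (B × U) →ₐ[K] K),
  (∀ (c : Module.End B (B × U)) (u : U), (c (0, u)).2 = π c • u) → EV B U U →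
  (∀ f : DA K (Module.End B (B × U)) →ₗ[Module.End B (B × U)] Chi π, f = 0) ∧
  EV (Module.End B (B × U)) (DA K (Module.End B (B × U))) (Chi π)

/-- PART C. `Hom_C(Q, C) = 0` and `Ext^i_C(Q, C) = 0` for `i ≥ 1`.

Proof. (1) `M` is an injective `C`-module: `M ≅ D Hom_B(M, B)`, `z ↦ (f ↦ lam (f z))`, and
`Hom_B(M, B)` is a projective right `C`-module (a direct summand of `C`); or directly: for
`C`-modules `P ⊆ P'` and `g : P → M`, extend `lam ∘ p₁ ∘ g : P → K` to a functional on `P'`, etc.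
(2) `Hom_C(Q, M) = 0`: if `γ z = π γ • z` for all `γ ∈ C`, then with `γ = p₁.smulRight w`
(`π γ = 0`) `p₁ z • w = 0` for all `w ∈ M`, so `p₁ z = 0` (take `w = (1, 0)`); more generally for
every `s : M → B` linear and `γ = s.smulRight (1, 0)`: `γ (0, u) = (s (0, u), 0)`, so `π γ = 0`,
`s z = 0`; and the linear forms `s : M → B` separate the points of `M` (`lam (s z) = l z` for any
`l ∈ D M`, `Sy.lift` in `H190/NK/Func.lean`). (3) So `Ext^i_C(Q, M^n) = 0` for all `i ≥ 0`. For `N` finitely generated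
with `Ext^i_B(N, M) = 0` for all `i ≥ 1`: choose `B^n → N` surjective with kernel `N'`; then
`0 → F N → F B^n = M^n → F N' → 0` is exact. So `Hom_C(Q, F N) = 0` and
`Ext^{i+1}_C(Q, F N) = Ext^i_C(Q, F N')`, induction on `i`. Take `N = M`, `F M = C`
(`Ext^i_B(M, M) = 0` since `B` is injective and projective and `EV B U U`). -/
def S_C : Prop := ∀ (K B : Type) [Field K] [Ring B] [Algebra K B] [Module.Finite K B] (_ : Fr K B)
  (U : Type) [AddCommGroup U] [Module K U] [Module B U] [IsScalarTower K B U] [Module.Finite K U]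
  [Nontrivial U] (π : Module.End B (B × U) →ₐ[K] K),
  (∀ (c : Module.End B (B × U)) (u : U), (c (0, u)).2 = π c • u) → EV B U U →
  (∀ f : Chi π →ₗ[Module.End B (B × U)] Module.End B (B × U), f = 0) ∧
  EV (Module.End B (B × U)) (Chi π) (Module.End B (B × U))

/-- PART D. `Ext^i_C(Q, Q) = 0` for `i ≥ 1`.

Proof. (0) As in part B `Hom_C(M^n, Q) = 0`, and `M^n ≅ F (B^n)` is projective, and so is `F U`
(a direct summand of `C`). A composition `U → B → U` of linear maps is zero: it is `c • id`; the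
endomorphism `γ' : (b, u) ↦ (f u, 0)` of `M` has `π γ' = 0`, so `π (γ γ') = 0` for all `γ`.
(1) The map `F U → Q`, `f ↦` the scalar `c` with `(f u).2 = c • u`, is `C`-linear and surjective,
with kernel `F₀ = {f : U → M | (f u).2 = 0}`. Let `j : U → B^n` be an embedding (`exists_embed` in
`H190/NK/Main.lean`), `p : B^n → V = B^n / U` the quotient map. `F (B^n) → F₀`, `h ↦ h ∘ j`, is
well defined (0), surjective (`B` is injective), with kernel `F V`.
(2) Pairing. For `g : B^a → U` and `u : U → Tw y (B^a)` linear put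
`⟨g, u⟩ = ∑_i lam (u (g e_i))_i`. For `d : B^a → B^m`, `h : B^m → U`:
`⟨h ∘ d, u⟩ = ⟨h, d ∘ u⟩` (with `D_{ij}` the matrix of `d`: both sides are sums of
`lam (nu D_ij * u_i (h e_j)) = lam (u_i (h e_j) * D_ij)`, by `comm` and `nn`). Every
`K`-linear form on `Hom_B(B^a, U) = U^a` is `⟨-, u⟩` for some `u` (for `l ∈ D U` there is a linear
`v : U → Tw y B` with `lam (v x) = l x`: determined by `lam (v x * b) = l (b • x)`; `lam` is also
nondegenerate on the other side, by dimension, or by `comm`).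
(3) Class `W` of finitely generated modules `V` with a surjective `p : B^a → V`, with kernel `W`,
such that `EV B U (Tw y W)` and (R): `⟨f ∘ p, u⟩ = 0` for all `f : V → U` and all
`u : U → Tw y (B^a)` with `p ∘ u = 0`. The `V` of (1) is in the class: `W = U`, and `u` as in (R)
has image in `Tw y U`, so `u = 0` by the hypothesis `Hom_B(U, Tw y U) = 0`. If `V` is in the
class, `i : V → B^m` an embedding, `p' : B^m → V' = B^m / V`, then `V'` is in the class: `EV B U
(Tw y V)` by dimension shift (`Tw y (B^a)` is injective); if `u : U → Tw y (B^m)`, `p' ∘ u = 0`,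
then `u` has image in `Tw y V`, so lifts to `w : U → Tw y (B^a)` as `Ext^1(U, Tw y W) = 0`, i.e.
`u = i ∘ p ∘ w`, and `⟨f' ∘ p', u⟩ = ⟨f' ∘ p' ∘ i ∘ p, w⟩ = 0`.
(4) For `V` in the class and `i : V → B^m` an embedding every `f : V → U` extends to `B^m`: by
linear algebra (double annihilator in the finite-dimensional space `Hom_B(B^a, U)`, (2)) it is
enough that `⟨f ∘ p, u⟩ = 0` for all `u` with `⟨h ∘ i ∘ p, u⟩ = ⟨h, i ∘ p ∘ u⟩ = 0` for all
`h : B^m → U`, i.e. `i ∘ p ∘ u = 0`, i.e. `p ∘ u = 0`: this is (R). (Then `h ∘ i ∘ p = f ∘ p`,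
so `h ∘ i = f`.) So `0 → F V' → F (B^m) → F V → 0` is exact (`B` is injective).
(5) So `Hom_C(F V, Q) ⊆ Hom_C(M^m, Q) = 0` and `EV C (F V) Q` for all `V` in the class (dimension
shift as in part B). Finally `Hom_C(F₀, Q) ⊆ Hom_C(M^n, Q) = 0` gives `Ext^1_C(Q, Q) = 0`,
`Ext^{i+1}_C(Q, Q) = Ext^i_C(F₀, Q)`, `Ext^1_C(F₀, Q)` is a quotient of `Hom_C(F V, Q) = 0`,
`Ext^{i+1}_C(F₀, Q) = Ext^i_C(F V, Q) = 0`. -/
def S_D : Prop := ∀ (K B : Type) [Field K] [Ring B] [Algebra K B] [Module.Finite K B] (y : Fr K B)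
  (U : Type) [AddCommGroup U] [Module K U] [Module B U] [IsScalarTower K B U] [Module.Finite K U]
  [Nontrivial U] (π : Module.End B (B × U) →ₐ[K] K),
  (∀ (c : Module.End B (B × U)) (u : U), (c (0, u)).2 = π c • u) →
  EV B U (Tw y U) → (∀ f : U →ₗ[B] Tw y U, f = 0) →
  (∀ f : U →ₗ[B] U, ∃ c : K, ∀ u, f u = c • u) →
  EV (Module.End B (B × U)) (Chi π) (Chi π)

/-- PART E (one-point extension; `C` is now any finite-dimensional algebra with a character `π`,
`Q = Chi π`).

Proof. `A` = the subalgebra of `C × Matrix (Fin 2) (Fin 2) K` of the pairs `(c, m)` with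
`m 1 0 = 0`, `m 0 0 = π c`; write `(c, k, q)` with `k = m 1 1`, `q = m 0 1`; then
`(c, k, q)(c', k', q') = (cc', kk', π(c) q' + q k')`. Left `A`-modules: (i) `C`-modules `Z` via the
surjective algebra map `φ : A → C`, `(c, k, q) ↦ c` (e.g. `ModuleCat.restrictScalars`); `C` itself
is a direct summand of `A` (`A (1, 0, 0)`), so projective over `A`. Hence `EV C Z Z'` implies
`EV A Z Z'` (dimension shift along `0 → Z₁ → C^(Z) → Z → 0`, using that `C`-linear and `A`-linear
maps are the same; for `n = 1` the extension property). (ii) `K_ω = Chi` of the character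
`(c, k, q) ↦ k`: it is injective (the dual of the projective right module `(0, 1, 0) A`).
(iii) `P = A (0, 1, 0) = {(0, k, q)}`, projective, with `0 → Q → P → K_ω → 0` exact.
As a left module `A = C ⊕ P`.
(1) `EV A K_ω C`: `Ext^{i+1}_A(K_ω, C) = Ext^i_A(Q, C) = 0`, and `Ext^1_A(K_ω, C)` is a quotient
of `Hom(Q, C) = 0`. (2) `EV A Q P`, by `0 → Q → P → K_ω → 0`, `EV A Q Q` and `K_ω` injective.
`EV A K_ω P`: `Ext^{i+1}(K_ω, P) = Ext^i(Q, P) = 0`, and every map `Q → P` (an element `x ∈ P` with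
`a x = π(φ a) x`, so `x = (0, 0, q)`) extends to `P → P` (a scalar). (3) `EV A DC C` by (i);
`EV A DC P` by `EV A DC Q` and `K_ω` injective. (4) `0 → DC → DA → K_ω² → 0` (`DC → DA`, `f ↦ f ∘
φ`; the quotient is the dual of the kernel `{(0, k, q)}` of `φ`, on which `A` acts from the right
by `k'`). So `EV A DA A`.
(5) Let `ε : A → I` be injective, `I` projective and injective. Let `w = (0, 0, 1)`, `z = ε w ≠ 0`;
`a z = π(φ a) z` for all `a`. `I` is projective, so there is a linear `p : I → A` with `p z ≠ 0`;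
`a (p z) = π(φ a) p z` gives `p z = (c, 0, q)` with `γ c = π(γ) c` for all `γ ∈ C`, so `c = 0` by
`Hom_C(Q, C) = 0`, `q ≠ 0`. Let `Z = DC` as an `A`-module; `π ∈ DC` spans a submodule isomorphic
to `Q`; since `I` is injective, `Q → I`, `1 ↦ z`, extends to `g : Z → I` with `g π = z`. The map
`p ∘ g : Z → A` has image in `{(c, 0, q)}` (`(1, 0, 0)` acts as the identity on `Z`), and its
`q`-component is a `C`-linear map `DC → Q`, so zero by hypothesis; but its value at `π` is `q ≠ 0`,
a contradiction. -/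
def S_E : Prop := ∀ (K C : Type) [Field K] [Ring C] [Algebra K C] [Module.Finite K C]
  (π : C →ₐ[K] K),
  (∀ f : Chi π →ₗ[C] C, f = 0) → EV C (Chi π) C → EV C (Chi π) (Chi π) →
  (∀ f : DA K C →ₗ[C] Chi π, f = 0) → EV C (DA K C) (Chi π) → EV C (DA K C) C →
  ∃ (A : Type) (_ : Ring A) (_ : Algebra K A), Module.Finite K A ∧ EV A (DA K A) A ∧
    ∀ (I : Type) [AddCommGroup I] [Module A I] (ε : A →ₗ[A] I), Function.Injective ε →
      Module.Projective A I → Module.Injective A I → False

/-- PART F: the frozen statement. (Not self-injective: take `I = A`. Injective `M` finitely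
generated: `Pool.Agent.H707.NK.factor_dual`, `ext_of_factor` in `Pool/Agent/H707/NK/S02360.lean`;
change of the universe of `Ext` as in `Pool.Agent.H190.NK.s01484_of`, `Ext.chgUniv`.) -/
def S_F : Prop := ∀ (K : Type) [Field K] (A : Type) [Ring A] [Algebra K A], Module.Finite K A →
  EV A (DA K A) A →
  (∀ (I : Type) [AddCommGroup I] [Module A I] (ε : A →ₗ[A] I), Function.Injective ε →
      Module.Projective A I → Module.Injective A I → False) →
  ¬ (∀ (k : Type) [Field k] (A : Type) [Ring A] [Algebra k A] [FiniteDimensional k A]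
    [CategoryTheory.HasExt.{1} (ModuleCat.{0} A)],
    ((∃ (I : ℕ → ModuleCat.{0} A) (ε : A →ₗ[A] I 0) (d : ∀ n, I n →ₗ[A] I (n + 1)),
        Function.Injective ε ∧ LinearMap.range ε = LinearMap.ker (d 0) ∧
        (∀ n, LinearMap.range (d n) = LinearMap.ker (d (n + 1))) ∧
        ∀ n, Module.Projective A (I n) ∧ Module.Injective A (I n)) →
      Module.Injective A A) →
    ((∀ (M : ModuleCat.{0} A), Module.Injective A M → Module.Finite A M →
        ∀ i : ℕ, 1 ≤ i →
          Subsingleton (CategoryTheory.Abelian.Ext.{1} M (ModuleCat.of A A) i)) →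
      Module.Injective A A))

/-- PART G: the skew group algebra `B = T * ⟨g⟩`, `g² = 1`, `g t = σ(t) g`, with elements
`t + s g`: `(t, s)(t', s') = (t t' + s σ(s'), t s' + s σ(t'))`.

Proof. `lam (t, s) = l t`, `nu (t, s) = (t, -s)`, `U = X` with `(t, s) x = t x + s x`.
`comm`: `l(tt' + sσ(s')) = l(t't) - l(s'σ(s))` since `l(sσ(s')) = -l(σ(sσ(s'))) = -l(σ(s)s') =
-l(s'σ(s))`. A `B`-linear map `U → Tw y U` satisfies `f x = f (g x) = - f x`, so it is zero.
`π`: for `c ∈ End_B(B × U)`, `u ↦ (c (0, u)).2` is a scalar `π c`; it is multiplicative because a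
composition `U → B → U` is zero: it is a scalar, and a nonzero scalar would make `U` projective
over `B`, so `X` projective over `T` (`B` is free over `T`).
Ext: for `B`-modules `V`, `V'` with `EV T V V'` (restriction along `t ↦ (t, 0)`) we have
`EV B V V'`: take `0 → V₁ → B^(V) → V → 0` (over `T` the middle term is free, so `EV T V₁ V'`),
dimension shift, and for `n = 1`: a `B`-linear `f : V₁ → V'` extends to a `T`-linear
`h : B^(V) → V'`; then `h' x = (h x + g h (g x)) / 2` is `B`-linear and extends `f`. Note that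
`Tw y U` restricted to `T` is `X`, too. -/
def S_G : Prop := ∀ (K T : Type) [Field K] [CharZero K] [Ring T] [Algebra K T] [Module.Finite K T]
  (l : T →ₗ[K] K) (_ : ∀ a b, l (a * b) = l (b * a)) (_ : ∀ b, (∀ x, l (x * b) = 0) → b = 0)
  (σ : T ≃ₐ[K] T) (_ : ∀ t, σ (σ t) = t) (_ : ∀ t, l (σ t) = - l t)
  (X : Type) [AddCommGroup X] [Module K X] [Module T X] [IsScalarTower K T X] [Module.Finite K X]
  [Nontrivial X] (_ : ∀ (t : T) (x : X), σ t • x = t • x)
  (_ : ∀ f : X →ₗ[T] X, ∃ c : K, ∀ x, f x = c • x) (_ : ¬ Module.Projective T X) (_ : EV T X X),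
  ∃ (B : Type) (_ : Ring B) (_ : Algebra K B) (_ : Module.Finite K B) (y : Fr K B)
    (U : Type) (_ : AddCommGroup U) (_ : Module K U) (_ : Module B U) (_ : IsScalarTower K B U)
    (_ : Module.Finite K U) (_ : Nontrivial U) (π : Module.End B (B × U) →ₐ[K] K),
    (∀ (c : Module.End B (B × U)) (u : U), (c (0, u)).2 = π c • u) ∧ EV B U U ∧
    EV B U (Tw y U) ∧ (∀ f : U →ₗ[B] Tw y U, f = 0) ∧
    (∀ f : U →ₗ[B] U, ∃ c : K, ∀ u, f u = c • u)

/-- PART H: the symmetric algebra `TT ℚ` with the module `XX ℚ`. -/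
def S_H : Prop := ∃ (T : Type) (_ : Ring T) (_ : Algebra ℚ T) (_ : Module.Finite ℚ T)
  (l : T →ₗ[ℚ] ℚ) (_ : ∀ a b, l (a * b) = l (b * a)) (_ : ∀ b, (∀ x, l (x * b) = 0) → b = 0)
  (σ : T ≃ₐ[ℚ] T) (_ : ∀ t, σ (σ t) = t) (_ : ∀ t, l (σ t) = - l t)
  (X : Type) (_ : AddCommGroup X) (_ : Module ℚ X) (_ : Module T X) (_ : IsScalarTower ℚ T X)
  (_ : Module.Finite ℚ X) (_ : Nontrivial X), (∀ (t : T) (x : X), σ t • x = t • x) ∧
  (∀ f : X →ₗ[T] X, ∃ c : ℚ, ∀ x, f x = c • x) ∧ (¬ Module.Projective T X) ∧ EV T X X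

/-- The assembly. -/
theorem main (hA : S_A) (hB : S_B) (hC : S_C) (hD : S_D) (hE : S_E) (hF : S_F) (hG : S_G)
    (hH : S_H) :
  ¬ (∀ (k : Type) [Field k] (A : Type) [Ring A] [Algebra k A] [FiniteDimensional k A]
    [CategoryTheory.HasExt.{1} (ModuleCat.{0} A)],
    ((∃ (I : ℕ → ModuleCat.{0} A) (ε : A →ₗ[A] I 0) (d : ∀ n, I n →ₗ[A] I (n + 1)),
        Function.Injective ε ∧ LinearMap.range ε = LinearMap.ker (d 0) ∧
        (∀ n, LinearMap.range (d n) = LinearMap.ker (d (n + 1))) ∧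
        ∀ n, Module.Projective A (I n) ∧ Module.Injective A (I n)) →
      Module.Injective A A) →
    ((∀ (M : ModuleCat.{0} A), Module.Injective A M → Module.Finite A M →
        ∀ i : ℕ, 1 ≤ i →
          Subsingleton (CategoryTheory.Abelian.Ext.{1} M (ModuleCat.of A A) i)) →
      Module.Injective A A)) := by
  obtain ⟨T, _, _, _, l, hl1, hl2, σ, hσ, hlσ, X, _, _, _, _, _, _, h1, h2, h3, h4⟩ := hH
  obtain ⟨B, _, _, _, y, U, _, _, _, _, _, _, π, g1, g2, g3, g4, g5⟩ :=
    hG ℚ T l hl1 hl2 σ hσ hlσ X h1 h2 h3 h4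
  obtain ⟨b1, b2⟩ := hB ℚ B y U π g1 g2
  obtain ⟨c1, c2⟩ := hC ℚ B y U π g1 g2
  have hfin : Module.Finite ℚ (Module.End B (B × U)) := by
    let g : Module.End B (B × U) →ₗ[ℚ] ((B × U) →ₗ[ℚ] (B × U)) :=
      { toFun := fun e => e.restrictScalars ℚ
        map_add' := fun _ _ => rfl
        map_smul' := fun _ _ => rfl }
    exact Module.Finite.of_injective g (LinearMap.restrictScalars_injective ℚ)
  obtain ⟨A, _, _, e1, e2, e3⟩ := hE ℚ (Module.End B (B × U)) π c1 c2
    (hD ℚ B y U π g1 g3 g4 g5) b1 b2 (hA ℚ B y U g2 g3)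
  exact hF ℚ A e1 e2 e3

end Pool.Agent.H379.TN
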