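import Pool.Agent.H190.NK.ExtLemmas
import Pool.Agent.H379.GS.Alg

/-!
# Project TN (MP_68f647_al, S01776): definitions

Plan: a Frobenius algebra `B` with an involutive Nakayama automorphism `nu` and a `B`-module `U`
with `Ext^i(U, U) = 0 = Ext^i(U, Tw U)` for `i ≥ 1`, `Hom(U, Tw U) = 0`, `End(U) = K`;
`C = End_B (B × U)`, `Q` the simple `C`-module belonging to `U`; `A' = ` one point extension of
`C` by `Q`. Then `A'` has dominant dimension `0` and `Ext^i(D A', A') = 0` for all `i ≥ 1`.
-/

set_option autoImplicit false

open CategoryTheory CategoryTheory.Abelian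

namespace Pool.Agent.H379.TN

/-- A Frobenius form `lam` with an involutive Nakayama automorphism `nu`. -/
structure Fr (K B : Type) [Field K] [Ring B] [Algebra K B] where
  lam : B →ₗ[K] K
  nu : B ≃ₐ[K] B
  nn : ∀ b, nu (nu b) = b
  comm : ∀ a b, lam (a * b) = lam (b * nu a)
  nondeg : ∀ b, (∀ x, lam (x * b) = 0) → b = 0

section Tw

variable {K B : Type} [Field K] [Ring B] [Algebra K B]

/-- The twist of the `B`-module `N` by the Nakayama automorphism: the same abelian group, `b` acts
as `nu b`. -/
def Tw (_ : Fr K B) (N : Type) : Type := N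

variable (y : Fr K B) {N : Type}

namespace Tw

/-- the identity `Tw y N → N` -/
def un (x : Tw y N) : N := x
/-- the identity `N → Tw y N` -/
def mk (x : N) : Tw y N := x

@[simp] theorem un_mk (x : N) : un y (mk y x) = x := rfl
@[simp] theorem mk_un (x : Tw y N) : mk y (un y x) = x := rfl
theorem ext {x x' : Tw y N} (h : un y x = un y x') : x = x' := h

instance [AddCommGroup N] : AddCommGroup (Tw y N) := inferInstanceAs (AddCommGroup N)

@[simp] theorem un_add [AddCommGroup N] (x x' : Tw y N) : un y (x + x') = un y x + un y x' := rfl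
@[simp] theorem un_zero [AddCommGroup N] : un y (0 : Tw y N) = 0 := rfl
@[simp] theorem un_neg [AddCommGroup N] (x : Tw y N) : un y (-x) = - un y x := rfl
@[simp] theorem un_sub [AddCommGroup N] (x x' : Tw y N) : un y (x - x') = un y x - un y x' := rfl

instance [AddCommGroup N] [Module K N] : Module K (Tw y N) := inferInstanceAs (Module K N)

@[simp] theorem un_ksmul [AddCommGroup N] [Module K N] (c : K) (x : Tw y N) :
    un y (c • x) = c • un y x := rfl

instance [AddCommGroup N] [Module B N] : Module B (Tw y N) :=
  Module.compHom N (y.nu : B →+* B)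

@[simp] theorem un_smul [AddCommGroup N] [Module B N] (b : B) (x : Tw y N) :
    un y (b • x) = y.nu b • un y x := rfl

instance [AddCommGroup N] [Module K N] [Module B N] [IsScalarTower K B N] :
    IsScalarTower K B (Tw y N) :=
  ⟨fun c b x => Tw.ext y (by rw [un_smul, un_ksmul, un_smul, map_smul, smul_assoc])⟩

instance [AddCommGroup N] [Module K N] [Module.Finite K N] : Module.Finite K (Tw y N) :=
  inferInstanceAs (Module.Finite K N)

end Tw

end Tw

section Chi

variable {K C : Type} [Field K] [Ring C] [Algebra K C]

/-- The one-dimensional `C`-module given by a character `π : C → K`. -/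
def Chi (_ : C →ₐ[K] K) : Type := K

variable (π : C →ₐ[K] K)

namespace Chi

/-- the identity `Chi π → K` -/
def un (x : Chi π) : K := x
/-- the identity `K → Chi π` -/
def mk (x : K) : Chi π := x

@[simp] theorem un_mk (x : K) : un π (mk π x) = x := rfl
@[simp] theorem mk_un (x : Chi π) : mk π (un π x) = x := rfl
theorem ext {x x' : Chi π} (h : un π x = un π x') : x = x' := h

instance : AddCommGroup (Chi π) := inferInstanceAs (AddCommGroup K)
instance : Module K (Chi π) := inferInstanceAs (Module K K)
instance : Module C (Chi π) := Module.compHom K (π : C →+* K)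

@[simp] theorem un_add (x x' : Chi π) : un π (x + x') = un π x + un π x' := rfl
@[simp] theorem un_zero : un π (0 : Chi π) = 0 := rfl
@[simp] theorem un_ksmul (c : K) (x : Chi π) : un π (c • x) = c * un π x := rfl
@[simp] theorem un_smul (c : C) (x : Chi π) : un π (c • x) = π c * un π x := rfl

instance : Module.Finite K (Chi π) := inferInstanceAs (Module.Finite K K)

instance : IsScalarTower K C (Chi π) :=
  ⟨fun a c x => Chi.ext π (by rw [un_smul, un_ksmul, un_smul, map_smul, smul_eq_mul, mul_assoc])⟩

end Chi

end Chi

/-- The vanishing of all `Ext^i_R(X, Y)`, `i ≥ 1`. -/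
abbrev EV (R : Type) [Ring R] (X Y : Type) [AddCommGroup X] [Module R X] [AddCommGroup Y]
    [Module R Y] : Prop :=
  ∀ n : ℕ, Subsingleton (Ext.{0} (ModuleCat.of R X) (ModuleCat.of R Y) (n + 1))

end Pool.Agent.H379.TN
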