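import Pool.Agent.H379.TN.Stms
import Pool.Agent.H379.NK.TY17

/-!
# Project TN, part H: the symmetric algebra `TT ℚ` with the module `XX ℚ`
-/

set_option autoImplicit false
set_option linter.unusedSectionVars false

namespace Pool.Agent.H379.TN

open W450.Rig Pool.Agent.H379.GS Pool.Agent.H379.NK MulOpposite TrivSqZeroExt
open CategoryTheory CategoryTheory.Abelian

section sig

variable (K : Type) [Field K] (A : Type) [Ring A] [Algebra K A]

/-- the symmetrising form of the trivial extension -/
def symL : T K A →ₗ[K] K where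
  toFun x := DA.ev x.snd 1
  map_add' x y := by simp
  map_smul' c x := by simp

theorem symL_apply (x : T K A) : symL K A x = DA.ev x.snd 1 := rfl

theorem symL_mul (x y : T K A) : symL K A (x * y) = DA.ev y.snd x.fst + DA.ev x.snd y.fst := by
  rw [symL_apply]; simp

theorem symL_comm (x y : T K A) : symL K A (x * y) = symL K A (y * x) := by
  rw [symL_mul, symL_mul, add_comm]

theorem symL_nondeg (b : T K A) (h : ∀ x, symL K A (x * b) = 0) : b = 0 := by
  apply TrivSqZeroExt.ext
  · refine (Module.forall_dual_apply_eq_zero_iff K b.fst).1 fun f => ?_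
    have := h (inr (DA.mk f))
    rw [symL_mul] at this
    simpa using this
  · refine DA.ext fun a => ?_
    have := h (inl a)
    rw [symL_mul] at this
    simpa using this

variable {K A}

/-- the involution `(x, f) ↦ (x, -f)` -/
def sg (x : T K A) : T K A := inl x.fst - inr x.snd

@[simp] theorem sg_fst (x : T K A) : (sg x).fst = x.fst := by simp [sg]
@[simp] theorem sg_snd (x : T K A) : (sg x).snd = -x.snd := by simp [sg]

theorem sg_sg (x : T K A) : sg (sg x) = x := TrivSqZeroExt.ext (by simp) (by simp)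

variable (K A)

/-- the involution as an automorphism -/
def sigE : T K A ≃ₐ[K] T K A where
  toFun := sg
  invFun := sg
  left_inv := sg_sg
  right_inv := sg_sg
  map_mul' x y := TrivSqZeroExt.ext (by simp) (by simp [add_comm])
  map_add' x y := TrivSqZeroExt.ext (by simp) (by simp [add_comm])
  commutes' c := by
    refine TrivSqZeroExt.ext (sg_fst _) ((sg_snd _).trans ?_)
    have : (algebraMap K (T K A) c).snd = 0 := rfl
    rw [this, neg_zero]

theorem sigE_apply (x : T K A) : sigE K A x = sg x := rfl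

theorem symL_sigE (x : T K A) : symL K A (sigE K A x) = - symL K A x := by
  rw [symL_apply, symL_apply, sigE_apply, sg_snd]
  rfl

end sig

section mod

variable (K : Type) [Field K] [CharZero K]

instance : Module K (XX K) := Module.compHom (XX K) (algebraMap K (TT K))

theorem XX_ksmul (c : K) (x : XX K) : c • x = (algebraMap K (TT K) c) • x := rfl

instance : IsScalarTower K (TT K) (XX K) :=
  ⟨fun c t x => (congrArg (· • x) (Algebra.smul_def c t)).trans (mul_smul _ _ _)⟩

instance : Module.Finite K (TT K) := (TT_symmetric K).1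

instance : Module.Finite K (XX K) := Module.Finite.trans (TT K) (XX K)

theorem sig_smul (t : TT K) (x : XX K) : sigE K (YY K) t • x = t • x := by
  rw [← JJ.of_to x, JJ.smul_of, JJ.smul_of, toR_apply, toR_apply, sigE_apply, sg_fst]

theorem end_Wm (φ : (irr K 0).Wm →ₗ[Rg K] (irr K 0).Wm) : ∃ c : K, ∀ w, φ w = c • w := by
  obtain ⟨m, hm, h1, -, h3⟩ := (irr K 0).hom_desc (irr K 0) φ
  obtain ⟨c, hc⟩ : ∃ c : K, m = c • LinearMap.id := by
    refine ⟨m (fun _ => 1) 0, LinearMap.ext fun v => funext fun i => ?_⟩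
    have hv : v = v 0 • (fun _ => (1 : K)) := by
      funext j
      have hj : j = 0 := Fin.ext (by omega)
      rw [Pi.smul_apply, smul_eq_mul, mul_one, hj]
    have hi : i = 0 := Fin.ext (by omega)
    rw [hi]
    conv_lhs => rw [hv]
    rw [map_smul, Pi.smul_apply, LinearMap.smul_apply, Pi.smul_apply, smul_eq_mul, smul_eq_mul,
      LinearMap.id_apply, mul_comm]
  refine ⟨c, fun w => ?_⟩
  obtain ⟨x, rfl⟩ := (irr K 0).pr_surj w
  rw [hm, hc]
  rfl

theorem end_XX (f : XX K →ₗ[TT K] XX K) : ∃ c : K, ∀ x, f x = c • x := by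
  let φ : (irr K 0).Wm →ₗ[Rg K] (irr K 0).Wm :=
    { toFun := fun w => JJ.to (f (JJ.of w))
      map_add' := fun w w' => by rw [JJ.of_add, map_add, JJ.to_add]
      map_smul' := fun r w => by
        have h : (JJ.of (r • w) : XX K) = io0 r • (JJ.of w : XX K) := by
          rw [JJ.smul_of, toR_apply]
          rfl
        rw [h, map_smul, JJ.to_smul]
        rfl }
  obtain ⟨c, hc⟩ := end_Wm K φ
  refine ⟨c, fun x => ?_⟩
  have h := hc (JJ.to x)
  have h1 : JJ.to (f x) = c • JJ.to x := h
  rw [← JJ.of_to (f x), h1, XX_ksmul, ← JJ.of_to x, JJ.smul_of, JJ.to_of, toR_apply]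
  have h2 : (algebraMap K (TT K) c).fst.a = c • (1 : Rg K) := rfl
  rw [h2, smul_assoc, one_smul]

end mod

theorem s_H : S_H :=
  ⟨TT ℚ, inferInstance, inferInstance, inferInstance, symL ℚ (YY ℚ), symL_comm ℚ (YY ℚ),
    symL_nondeg ℚ (YY ℚ), sigE ℚ (YY ℚ), sg_sg, symL_sigE ℚ (YY ℚ), XX ℚ, inferInstance,
    inferInstance, inferInstance, inferInstance, inferInstance, XX_nontrivial ℚ, sig_smul ℚ,
    end_XX ℚ, XX_not_projective ℚ, fun n => ext_XX (n + 1) (by omega)⟩

end Pool.Agent.H379.TN
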